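import Pool.Agent.Q163.Arc.Net

/-!
# The arc-complexity of the uniform matroid `U_{r,n}` is not `r (n - r)`

For all `r ≥ 4` and `n ≥ r + 4` there is a standard representation of `U_{r,n}` with at most
`r (n - r) - 1` arcs: one further vertex (a hub) with at most four arcs in and four arcs out
replaces nine arcs between four sources and four targets, which form a bipartite graph without
4-cycles. So the equality `arcC(U_{r,n}) = r (n - r)` fails for `U_{4,8}` and for all `U_{r,n}` with
`r ≥ 4` and `n - r ≥ 4`.

The definitions (`IsPath`, `IsRouting`, `IsStandardRep`, `arcCounts`, `arcC`, `uniform`) are in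
`Pool.Agent.Q163.Arc.Defs`.
-/

set_option autoImplicit false

namespace Pool.Agent.Results.MP_0a0514_co.FewerArcs

open Q163.Arc

/-- For all `r ≥ 4` and `n ≥ r + 4` the uniform matroid `U_{r,n}` has standard representations, and
its arc-complexity is smaller than `r (n - r)`. In particular it is not true that
`arcC(U_{r,n}) = r (n - r)` for all `0 ≤ r ≤ n`. -/
theorem result :
    (∀ r n : ℕ, 4 ≤ r → r + 4 ≤ n →
      (arcCounts (uniform r n)).Nonempty ∧ arcC (uniform r n) < r * (n - r)) ∧
    ¬ ∀ r n : ℕ, r ≤ n → arcC (uniform r n) = r * (n - r) := by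
  have h : ∀ r n : ℕ, 4 ≤ r → r + 4 ≤ n →
      (arcCounts (uniform r n)).Nonempty ∧ arcC (uniform r n) < r * (n - r) := by
    intro r n hr hn
    have hmem : (arcs r n).card ∈ arcCounts (uniform r n) :=
      ⟨Vt n, inferInstance, Sum.inl, Sum.inl_injective.injOn, arcs r n, tg r n,
        standardRep hr hn, Set.ncard_coe_finset _⟩
    exact ⟨⟨_, hmem⟩, (Nat.sInf_le hmem).trans_lt (card_arcs hr hn)⟩
  refine ⟨h, fun hall => ?_⟩
  have h1 := (h 4 8 le_rfl le_rfl).2
  rw [hall 4 8 (by norm_num)] at h1
  exact lt_irrefl _ h1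

end Pool.Agent.Results.MP_0a0514_co.FewerArcs
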